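import Pool.Agent.Lib.MP_651af7_nt.Am.Voc
import Pool.Agent.Lib.MP_651af7_nt.Fc.Main
import Pool.Agent.Lib.MP_651af7_nt.Tb.Pl

/-! From the filtration to the inequality between heights. -/

namespace Pool.Agent.Lib.MP_651af7_nt.Am

open Height MvPolynomial NumberField IntermediateField Ds

section aux

open Finset Tb Real

variable {k : Type} [Field k] {g R N : ℕ}

theorem Main_mem {K : Type} [Field K] [Algebra k K] (y : Fin g → K) (ξ : Fin R × Fin N → K)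
    {U : MvPolynomial (Fin g ⊕ Fin R × Fin N) k} {d : Fin R → ℕ}
    (hh : U.IsWeightedHomogeneous
      (Sum.elim (fun _ => 0) fun s => (Pi.single s.1 1 : Fin R → ℕ)) d) :
    aeval (Sum.elim y ξ) U ∈ bm (adjoin k (Set.range y)) ξ d := by
  rw [aeval_def, eval₂_eq']
  refine Submodule.sum_mem _ fun α hα => ?_
  have h1 := hh (mem_support_iff.1 hα)
  have h2 : algebraMap k K (U.coeff α) * ∏ i, y i ^ α (.inl i) ∈ adjoin k (Set.range y) :=
    mul_mem (IntermediateField.algebraMap_mem _ _)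
      (prod_mem fun i _ => pow_mem (subset_adjoin k _ (Set.mem_range_self i)) _)
  have h3 : ∏ s, ξ s ^ α (.inr s) ∈ bm (adjoin k (Set.range y)) ξ d := by
    refine Submodule.subset_span ⟨fun s => α (.inr s), fun b => ?_, rfl⟩
    have h4 := congrFun h1 b
    rw [Finsupp.weight_apply, Finsupp.sum_fintype _ _ (fun _ => by simp),
      Fintype.sum_sum_type, Fintype.sum_prod_type] at h4
    simp only [Sum.elim_inl, Sum.elim_inr, smul_zero, sum_const_zero, zero_add, Finset.sum_apply,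
      Pi.smul_apply, smul_eq_mul, Pi.single_apply, mul_ite, mul_one, mul_zero] at h4
    rw [← h4, sum_comm]
    simp
  have h5 := Submodule.smul_mem _ (⟨_, h2⟩ : adjoin k (Set.range y)) h3
  rw [Fintype.prod_sum_type]
  simp only [Sum.elim_inl, Sum.elim_inr]
  rw [← mul_assoc]
  exact h5

theorem Main_max {t : Fin R × Fin N → k} (ht : ∀ b, (fun a => t (b, a)) ≠ 0)
    (w : AbsoluteValue k ℝ) : ∃ m : Fin R → Fin N, ∀ b, w (t (b, m b)) = ⨆ a, w (t (b, a)) := by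
  have h : ∀ b, ∃ m, w (t (b, m)) = ⨆ a, w (t (b, a)) := fun b => by
    obtain ⟨a, _⟩ := Function.ne_iff.1 (ht b)
    have : Nonempty (Fin N) := ⟨a⟩
    exact exists_eq_ciSup_of_finite (f := fun a => w (t (b, a)))
  choose m hm using h
  exact ⟨m, hm⟩

theorem Main_pos {ι : Type} [Finite ι] {x : ι → k} (hx : x ≠ 0) (w : AbsoluteValue k ℝ) :
    0 < ⨆ i, w (x i) :=
  let ⟨a, ha⟩ := Function.ne_iff.1 hx
  (w.pos ha).trans_le (Finite.le_ciSup (fun a => w (x a)) a)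

theorem Main_mn {t : Fin R × Fin N → k} (ht : ∀ b, (fun a => t (b, a)) ≠ 0) (Y : Fin R → ℕ)
    (w : AbsoluteValue k ℝ) :
    ⨆ μ : Mn N Y, w (mn t μ) = ∏ b, (⨆ a, w (t (b, a))) ^ Y b := by
  obtain ⟨m, hm⟩ := Main_max ht w
  let μ₀ : Mn N Y := fun b => ⟨Pi.single (m b) (Y b), by simp⟩
  have : Nonempty (Mn N Y) := ⟨μ₀⟩
  refine le_antisymm (ciSup_le fun μ => ?_) (le_trans (le_of_eq ?_)
    (Finite.le_ciSup (fun μ : Mn N Y => w (mn t μ)) μ₀))
  · rw [mn, map_prod, Fintype.prod_prod_type]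
    refine prod_le_prod (fun b _ => prod_nonneg fun _ _ => w.nonneg _) fun b _ => ?_
    rw [← (mem_piAntidiag.1 (μ b).2).1, ← prod_pow_eq_pow_sum]
    exact prod_le_prod (fun _ _ => w.nonneg _) fun a _ => (map_pow w _ _).trans_le
      (pow_le_pow_left₀ (w.nonneg _) (Finite.le_ciSup (fun a => w (t (b, a))) a) _)
  · rw [mn, map_prod, Fintype.prod_prod_type]
    refine prod_congr rfl fun b _ => ?_
    rw [Fintype.prod_eq_single (m b) fun a ha => by simp [μ₀, ha]]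
    simp [μ₀, hm]

theorem Main_pw {t : Fin R × Fin N → k} (ht : ∀ b, (fun a => t (b, a)) ≠ 0) (u : k)
    (Z : Fin R → ℕ) (w : AbsoluteValue k ℝ) :
    ⨆ l, w (pw t u Z l) = w u * ∏ b, (⨆ a, w (t (b, a))) ^ Z b := by
  obtain ⟨m, hm⟩ := Main_max ht w
  have : Nonempty (Fin (N ^ R)) := ⟨finFunctionFinEquiv m⟩
  refine le_antisymm (ciSup_le fun l => ?_) (le_trans (le_of_eq ?_)
    (Finite.le_ciSup (fun l => w (pw t u Z l)) (finFunctionFinEquiv m)))
  · rw [pw, map_mul, map_prod]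
    exact mul_le_mul_of_nonneg_left (prod_le_prod (fun _ _ => w.nonneg _) fun b _ =>
      (map_pow w _ _).trans_le (pow_le_pow_left₀ (w.nonneg _)
        (Finite.le_ciSup (fun a => w (t (b, a))) _) _)) (w.nonneg _)
  · simp [pw, hm]

variable [NumberField k]

theorem Main_ht {t : Fin R × Fin N → k} (ht : ∀ b, (fun a => t (b, a)) ≠ 0) (Y : Fin R → ℕ) :
    logHeight (mn (Y := Y) t) = ∑ b, Y b * logHeight fun a => t (b, a) := by
  have h0 : mn (Y := Y) t ≠ 0 := fun e => by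
    obtain ⟨w⟩ : Nonempty (InfinitePlace k) := inferInstance
    have h1 := Main_mn ht Y w.1
    have h2 : 0 < ∏ b, (⨆ a, w.1 (t (b, a))) ^ Y b :=
      prod_pos fun b _ => pow_pos (Main_pos (ht b) w.1) _
    rw [← h1, e] at h2
    simp at h2
  have h1 : ls (mn (Y := Y) t) = fun w => ∑ b, Y b * ls (fun a => t (b, a)) w := funext fun w => by
    rw [ls, Main_mn ht, log_prod fun b _ => (pow_pos (Main_pos (ht b) w) _).ne']
    simp only [log_pow, ls]
  rw [ht_split ∅ h0, h1, iS_sum, oS_sum _ fun b => (fs_ls _).mul _, ← sum_add_distrib]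
  refine sum_congr rfl fun b _ => ?_
  rw [iS_mul, oS_mul _ (fs_ls _), ht_split ∅ (ht b), mul_add]

theorem Main_split (S : Finset (FinitePlace k)) {x : Fin g → k} (hx : x ≠ 0)
    {t : Fin R × Fin N → k} (ht : ∀ b, (fun a => t (b, a)) ≠ 0) {u : k} (hu : u ≠ 0) (e : ℕ)
    {d Y : Fin R → ℕ} (hd : ∀ b, d b ≤ Y b) :
    iS S (fun w => log ((⨆ i, w (x i)) ^ e * (⨆ μ : Mn N Y, w (mn t μ)) ^ 1 /
      ⨆ l, w (pw t u (fun b => Y b - d b) l))) +
      ∑ᶠ v ∈ (S : Set (FinitePlace k))ᶜ, log ((⨆ i, v (x i)) ^ e *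
        (∏ b, (⨆ a, v (t (b, a))) ^ d b) / v u) =
      e * logHeight x + ∑ b, d b * logHeight fun a => t (b, a) := by
  have h1 : (fun w : AbsoluteValue k ℝ => log ((⨆ i, w (x i)) ^ e *
      (∏ b, (⨆ a, w (t (b, a))) ^ d b) / w u)) = fun w =>
        (e * ls x w + ∑ b, d b * ls (fun a => t (b, a)) w) - log (w u) := funext fun w => by
    have h2 := (pow_pos (Main_pos hx w) e).ne'
    have h3 : ∀ b ∈ univ, (⨆ a, w (t (b, a))) ^ d b ≠ 0 := fun b _ =>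
      (pow_pos (Main_pos (ht b) w) _).ne'
    have h4 := prod_ne_zero_iff.2 h3
    rw [log_div (mul_ne_zero h2 h4) (w.pos hu).ne', log_mul h2 h4, log_prod h3]
    simp only [log_pow, ls]
  have h2 : (fun w : AbsoluteValue k ℝ => log ((⨆ i, w (x i)) ^ e *
      (⨆ μ : Mn N Y, w (mn t μ)) ^ 1 / ⨆ l, w (pw t u (fun b => Y b - d b) l))) =
      fun w => log ((⨆ i, w (x i)) ^ e * (∏ b, (⨆ a, w (t (b, a))) ^ d b) / w u) :=
    funext fun w => by
      have h3 : ∏ b, (⨆ a, w (t (b, a))) ^ (Y b - d b) ≠ 0 :=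
        prod_ne_zero_iff.2 fun b _ => (pow_pos (Main_pos (ht b) w) _).ne'
      have h4 : ∏ b, (⨆ a, w (t (b, a))) ^ Y b =
          (∏ b, (⨆ a, w (t (b, a))) ^ d b) * ∏ b, (⨆ a, w (t (b, a))) ^ (Y b - d b) := by
        rw [← prod_mul_distrib]
        exact prod_congr rfl fun b _ => by rw [← pow_add, Nat.add_sub_cancel' (hd b)]
      rw [Main_mn ht, Main_pw ht, pow_one, h4, ← mul_assoc, mul_div_mul_right _ _ h3]
  have h3 : FS fun w => ∑ b, d b * ls (fun a => t (b, a)) w := FS.sum _ fun b => (fs_ls _).mul _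
  have h4 : ∀ b, iS S (fun w => d b * ls (fun a => t (b, a)) w) +
      oS S (fun w => d b * ls (fun a => t (b, a)) w) = d b * logHeight fun a => t (b, a) :=
    fun b => by rw [iS_mul, oS_mul _ (fs_ls _), ht_split S (ht b), mul_add]
  have h5 := sum_congr rfl fun b (_ : b ∈ univ) => h4 b
  have h6 := pf_split S hu
  have h7 := ht_split S hx
  change _ + oS S (fun w : AbsoluteValue k ℝ => log ((⨆ i, w (x i)) ^ e *
      (∏ b, (⨆ a, w (t (b, a))) ^ d b) / w u)) = _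
  rw [h2, h1, iS_sub, oS_sub (((fs_ls _).mul _).add h3) (fs_log _), iS_add,
    oS_add ((fs_ls _).mul _) h3, iS_mul, oS_mul _ (fs_ls _), iS_sum,
    oS_sum _ fun b => (fs_ls _).mul _, ← h5, sum_add_distrib, h7]
  linarith

end aux

theorem main_sharp (k : Type) [Field k] [NumberField k] (g R N q : ℕ)
    (J : Ideal (MvPolynomial (Fin g) k)) (hJ : ∀ P ∈ J, ∀ d, homogeneousComponent d P ∈ J)
    (hA : Abelian (J.map (MvPolynomial.map (algebraMap k (AlgebraicClosure k)))))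
    (K : Type) [Field K] [Algebra k K] (y : Fin g → K) (ξ : Fin R × Fin N → K)
    (hy : ∀ (P : MvPolynomial (Fin g) k) (d : ℕ), P.IsHomogeneous d → (aeval y P = 0 ↔ P ∈ J))
    (y1 : ∃ i, y i = 1) (ξ1 : ∀ b, ∃ a, ξ (b, a) ≠ 0) (F : IntermediateField k K)
    (hF : F = adjoin k (Set.range y)) (hK : adjoin F (Set.range ξ) = ⊤)
    (hc : ∀ z : K, IsAlgebraic F z → z ∈ F) (U : Fin q → MvPolynomial (Fin g ⊕ Fin R × Fin N) k)
    (hU : ∀ j, aeval (Sum.elim y ξ) (U j) ≠ 0) (e : Fin q → ℕ) (d : Fin q → Fin R → ℕ)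
    (Y : Fin R → ℕ) (a : Fin q → ℕ) (p : ℕ) (hp : 0 < p) (hle : ∀ j b, d j b ≤ Y b)
    (hs : ∀ b, ∑ j, a j * d j b = (p + 1) * Y b)
    (hN : ∀ L, Fc.NevB F (mn (Y := Y) ξ)
      (fun j => pw ξ (aeval (Sum.elim y ξ) (U j)) fun b => Y b - d j b) (fun _ => 1)
      (fun j => L * a j) ((L + 1) * p)) (ε : ℝ) (hε : 0 < ε) :
    ∃ Θ : MvPolynomial (Fin g ⊕ Fin R × Fin N) k,
      aeval (Sum.elim y ξ) Θ ≠ 0 ∧ ∀ S : Finset (FinitePlace k), ∃ C : ℝ,
        ∀ (x : Fin g → k) (t : Fin R × Fin N → k),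
        (∀ P, aeval (Sum.elim y ξ) P = 0 → eval (Sum.elim x t) P = 0) →
        eval (Sum.elim x t) Θ ≠ 0 → (∀ j, eval (Sum.elim x t) (U j) ≠ 0) ∧
        (∀ b, (fun a => t (b, a)) ≠ 0) ∧
        ∑ b, Y b * logHeight (fun a => t (b, a)) +
          (∑ j, ((4 * p * a j : ℕ) : ℝ) * e j) * logHeight x ≤
          ∑ j, ((4 * p * a j : ℕ) : ℝ) * ∑ᶠ v ∈ (S : Set (FinitePlace k))ᶜ,
            Real.log ((⨆ i, v (x i)) ^ e j * (∏ b, (⨆ a, v (t (b, a))) ^ d j b) /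
              v (eval (Sum.elim x t) (U j))) + ε * logHeight x + C := by
  subst hF
  have D : Fc.Dat J y := ⟨hJ, hA, y1, hy, hc⟩
  obtain ⟨η, η0, η1, η2⟩ : ∃ η : ℝ, 0 < η ∧ 2 * η ≤ ε ∧ 2 * η ≤ 1 :=
    ⟨min ε 1 / 2, by positivity, by linarith [min_le_left ε 1], by linarith [min_le_right ε 1]⟩
  obtain ⟨v, h, hv⟩ := Fc.sp_top (k := k) hK
  choose m hm using ξ1
  obtain ⟨o, ho⟩ := y1
  obtain ⟨W, w1, h3⟩ := D.core h (fun j => Function.ne_iff.2 ⟨finFunctionFinEquiv m, by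
    simp only [pw, Equiv.symm_apply_apply]
    exact mul_ne_zero (hU j) (Finset.prod_ne_zero_iff.2 fun b _ => pow_ne_zero _ (hm b))⟩) e
    (hN (2 * p)) η0
  have w2 : ∀ P, ∀ᶠ z in Fc.gen k (Sum.elim y ξ), v z (aeval (Sum.elim y ξ) P) = eval z P :=
    fun P => by
      filter_upwards [hv, h.aeval (Sum.elim y ξ) P] with z z1 z2
      have e1 : (fun s => v z (Sum.elim y ξ s)) = z := funext (Sum.forall.2 z1)
      rw [z2, e1]
  have w3 : ∀ μ : Mn N Y, ∀ᶠ z in Fc.gen k (Sum.elim y ξ),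
      v z (mn ξ μ) = mn (fun s => z (.inr s)) μ := fun μ => by
    simpa [mn] using w2 (mn (fun s => X (.inr s)) μ)
  have w4 : ∀ j l, ∀ᶠ z in Fc.gen k (Sum.elim y ξ),
      v z (pw ξ (aeval (Sum.elim y ξ) (U j)) (fun b => Y b - d j b) l) =
        pw (fun s => z (.inr s)) (eval z (U j)) (fun b => Y b - d j b) l := fun j l => by
    simpa [pw] using w2 (pw (fun s => X (.inr s)) (U j) (fun b => Y b - d j b) l)
  have w5 : ∀ P, aeval (Sum.elim y ξ) P ≠ 0 → ∀ᶠ z in Fc.gen k (Sum.elim y ξ), eval z P ≠ 0 :=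
    fun P hP => ⟨P, hP, fun _ _ h => h⟩
  obtain ⟨Θ, a1, a2⟩ := Filter.inter_mem w1 (hv.and ((Filter.eventually_all.2 w3).and
    ((Filter.eventually_all.2 fun j => Filter.eventually_all.2 (w4 j)).and
    ((Filter.eventually_all.2 fun j => w5 _ (hU j)).and
    ((w5 (X (.inl o)) (by simp [ho])).and
    (Filter.eventually_all.2 fun b => w5 (X (.inr (b, m b))) (by simpa using hm b)))))))
  refine ⟨Θ, a1, fun S => ?_⟩
  obtain ⟨C, hC⟩ := h3 S
  refine ⟨2 * C, fun x t p1 p2 => ?_⟩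
  obtain ⟨b1, ⟨b2, -⟩, b3, b4, b5, b6, b7⟩ := a2 _ p1 p2
  have hx : x ≠ 0 := Function.ne_iff.2 ⟨o, by simpa using b6⟩
  have ht : ∀ b, (fun a => t (b, a)) ≠ 0 := fun b => Function.ne_iff.2 ⟨m b, by simpa using b7 b⟩
  refine ⟨b5, ht, ?_⟩
  have c1 := hC _ b1
  simp only [b2, b3, b4, Sum.elim_inl, Sum.elim_inr] at c1
  have c2 := fun j => Main_split S hx ht (b5 j) (e j) (hle j)
  have c3 := Main_ht ht Y
  have c4 : ∀ b, (∑ j, (a j : ℝ) * d j b) = (p + 1) * Y b := fun b => by exact_mod_cast hs b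
  have c5 : (1 : ℝ) ≤ p := by exact_mod_cast hp
  have c9 : 0 ≤ ∑ b, Y b * logHeight (fun a => t (b, a)) :=
    Finset.sum_nonneg fun _ _ => mul_nonneg (Nat.cast_nonneg _) (logHeight_nonneg _)
  have c10 := Finset.sum_congr rfl fun j (_ : j ∈ Finset.univ) => congrArg ((a j : ℝ) * ·) (c2 j)
  have c11 : ∑ j, (a j : ℝ) * ∑ b, d j b * logHeight (fun a => t (b, a)) =
      (p + 1) * ∑ b, Y b * logHeight fun a => t (b, a) := by
    simp only [Finset.mul_sum, ← mul_assoc, ← c4, Finset.sum_mul]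
    exact Finset.sum_comm
  simp only [mul_add, Finset.sum_add_distrib, c11, ← mul_assoc (a _ : ℝ) (e _ : ℝ),
    ← Finset.sum_mul] at c10
  have c12 : ∑ s : Rt.Pl S, (Rt.mu s : ℝ) * ∑ j, ((2 * p * a j : ℕ) : ℝ) *
      Real.log ((⨆ i, Rt.av s (x i)) ^ e j * (⨆ μ : Mn N Y, Rt.av s (mn t μ)) ^ 1 /
        ⨆ l, Rt.av s (pw t (eval (Sum.elim x t) (U j)) (fun b => Y b - d j b) l)) =
      2 * p * ∑ j, (a j : ℝ) * Tb.iS S (fun w => Real.log ((⨆ i, w (x i)) ^ e j *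
        (⨆ μ : Mn N Y, w (mn t μ)) ^ 1 /
        ⨆ l, w (pw t (eval (Sum.elim x t) (U j)) (fun b => Y b - d j b) l))) := by
    simp only [Tb.iS, Finset.mul_sum]
    rw [Finset.sum_comm]
    refine Finset.sum_congr rfl fun j _ => Finset.sum_congr rfl fun s _ => ?_
    push_cast
    ring
  have c13 : (∑ s : Rt.Pl S, (Rt.mu s : ℝ) * ∑ j, ((2 * p * a j : ℕ) : ℝ) *
      Real.log ((⨆ i, Rt.av s (x i)) ^ e j * (⨆ μ : Mn N Y, Rt.av s (mn t μ)) ^ 1 /
        ⨆ l, Rt.av s (pw t (eval (Sum.elim x t) (U j)) (fun b => Y b - d j b) l))) ≤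
      ((((2 * p + 1) * p : ℕ) : ℝ) + η) * logHeight (mn (Y := Y) t) +
        η * logHeight x + C := c1
  rw [c12, c3] at c13
  simp only [Nat.cast_mul, Nat.cast_ofNat, mul_assoc (4 * p : ℝ), ← Finset.mul_sum]
  push_cast at c13
  have c14 := logHeight_nonneg x
  have c15 := congrArg ((2 * p : ℝ) * ·) c10
  have c16 := mul_le_mul_of_nonneg_right η1 c14
  have c17 := mul_le_mul_of_nonneg_right c5 c9
  have c18 := mul_le_mul_of_nonneg_right η2 c9
  beta_reduce at c15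
  linarith

theorem main_core (k : Type) [Field k] [NumberField k] (g R N q : ℕ)
    (J : Ideal (MvPolynomial (Fin g) k)) (hJ : ∀ P ∈ J, ∀ d, homogeneousComponent d P ∈ J)
    (hA : Abelian (J.map (MvPolynomial.map (algebraMap k (AlgebraicClosure k)))))
    (K : Type) [Field K] [Algebra k K] (y : Fin g → K) (ξ : Fin R × Fin N → K)
    (hy : ∀ (P : MvPolynomial (Fin g) k) (d : ℕ), P.IsHomogeneous d → (aeval y P = 0 ↔ P ∈ J))
    (y1 : ∃ i, y i = 1) (ξ1 : ∀ b, ∃ a, ξ (b, a) ≠ 0) (F : IntermediateField k K)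
    (hF : F = adjoin k (Set.range y)) (hK : adjoin F (Set.range ξ) = ⊤)
    (hc : ∀ z : K, IsAlgebraic F z → z ∈ F) (U : Fin q → MvPolynomial (Fin g ⊕ Fin R × Fin N) k)
    (hU : ∀ j, aeval (Sum.elim y ξ) (U j) ≠ 0) (e : Fin q → ℕ) (d : Fin q → Fin R → ℕ)
    (he : ∀ j, 0 < e j) (hq : 0 < q) (Y : Fin R → ℕ) (a : Fin q → ℕ) (p : ℕ) (hp : 0 < p)
    (ha : ∀ j, 0 < a j) (hY : ∀ b, 0 < Y b) (hle : ∀ j b, d j b ≤ Y b)
    (hs : ∀ b, ∑ j, a j * d j b = (p + 1) * Y b)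
    (hN : ∀ L, Fc.NevB F (mn (Y := Y) ξ)
      (fun j => pw ξ (aeval (Sum.elim y ξ) (U j)) fun b => Y b - d j b) (fun _ => 1)
      (fun j => L * a j) ((L + 1) * p)) :
    ∃ (Θ : MvPolynomial (Fin g ⊕ Fin R × Fin N) k) (c : Fin q → ℕ),
      aeval (Sum.elim y ξ) Θ ≠ 0 ∧ ∀ S : Finset (FinitePlace k), ∃ C : ℝ,
        ∀ (x : Fin g → k) (t : Fin R × Fin N → k),
        (∀ P, aeval (Sum.elim y ξ) P = 0 → eval (Sum.elim x t) P = 0) →
        eval (Sum.elim x t) Θ ≠ 0 → (∀ j, eval (Sum.elim x t) (U j) ≠ 0) ∧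
        (∀ b, (fun a => t (b, a)) ≠ 0) ∧
        logHeight x + ∑ b, logHeight (fun a => t (b, a)) ≤
          ∑ j, c j * ∑ᶠ v ∈ (S : Set (FinitePlace k))ᶜ, Real.log ((⨆ i, v (x i)) ^ e j *
            (∏ b, (⨆ a, v (t (b, a))) ^ d j b) / v (eval (Sum.elim x t) (U j))) + C := by
  obtain ⟨Θ, a1, a2⟩ := main_sharp k g R N q J hJ hA K y ξ hy y1 ξ1 F hF hK hc U hU e d Y a p hp
    hle hs hN 1 one_pos
  refine ⟨Θ, fun j => 4 * p * a j, a1, fun S => (a2 S).imp fun C hC x t p1 p2 =>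
    (hC x t p1 p2).imp_right fun h => h.imp_right fun h => ?_⟩
  have c1 : (2 : ℝ) ≤ ∑ j, ((4 * p * a j : ℕ) : ℝ) * e j := by
    refine le_trans ?_ (Finset.single_le_sum (f := fun j => ((4 * p * a j : ℕ) : ℝ) * e j)
      (fun _ _ => by positivity) (Finset.mem_univ ⟨0, hq⟩))
    have h1 := Nat.mul_pos (Nat.mul_pos hp (ha ⟨0, hq⟩)) (he ⟨0, hq⟩)
    have h2 : 2 ≤ 4 * p * a ⟨0, hq⟩ * e ⟨0, hq⟩ := by
      rw [mul_assoc 4, mul_assoc 4]
      omega
    exact_mod_cast h2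
  have c2 : ∑ b, logHeight (fun a => t (b, a)) ≤ ∑ b, Y b * logHeight fun a => t (b, a) :=
    Finset.sum_le_sum fun b _ => le_mul_of_one_le_left (logHeight_nonneg _)
      (by exact_mod_cast hY b)
  have c3 := mul_le_mul_of_nonneg_right c1 (logHeight_nonneg x)
  linarith

end Pool.Agent.Lib.MP_651af7_nt.Am
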