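import Mathlib

/-! Charts of a subvariety of a product of projective spaces, and general position. -/

namespace Pool.Agent.Lib.MP_651af7_nt.Am

variable (F : Type) {K : Type} [Field F] [Field K] [Algebra F K] {R N q : ℕ}
  (ξ : Fin R × Fin N → K)

/-- The coordinate ring of the chart in which the coordinate `ε b` of each block `b` is `1`. -/
def chart (ε : Fin R → Fin N) : Subalgebra F K :=
  Algebra.adjoin F (Set.range fun s => ξ s / ξ (s.1, ε s.1))

/-- General position: in each chart any `t` of the local equations `φ j` generate an ideal of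
height at least `t`. -/
def Gen (u : Fin q → K) (d : Fin q → Fin R → ℕ) : Prop :=
  ∀ ε, (∀ b, ξ (b, ε b) ≠ 0) → ∀ φ : Fin q → chart F ξ ε,
    (∀ j, φ j = u j / ∏ b, ξ (b, ε b) ^ d j b) → ∀ T : Finset (Fin q),
      (T.card : ℕ∞) ≤ (Ideal.span (φ '' T)).height

/-- The values at `ξ` of the forms of multidegree `Y`. -/
def bm (Y : Fin R → ℕ) : Submodule F K :=
  Submodule.span F {z | ∃ μ : Fin R × Fin N → ℕ, (∀ b, ∑ a, μ (b, a) = Y b) ∧ z = ∏ s, ξ s ^ μ s}

/-- A fixed factor maps the forms of multidegree `A` to forms of multidegree `B`. -/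
def Inc (A B : Fin R → ℕ) : Prop :=
  ∃ f : K, f ≠ 0 ∧ ∀ z ∈ bm F ξ A, f * z ∈ bm F ξ B

/-- All multiples of `Y` and `Y'` map to each other up to a bounded shift. -/
def Neq (Y Y' : Fin R → ℕ) : Prop :=
  ∃ Z, ∀ m : ℕ, Inc F ξ (m • Y) (m • Y' + Z) ∧ Inc F ξ (m • Y') (m • Y + Z)

end Pool.Agent.Lib.MP_651af7_nt.Am
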