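import Pool.Agent.Lib.MP_651af7_nt.Am.Voc
import Pool.Agent.Lib.MP_651af7_nt.Fc.RV

/-! The filtration of Ru and Vojta on the forms of one multidegree. -/

namespace Pool.Agent.Lib.MP_651af7_nt.Am

open Module Fc

variable {F K : Type} [Field F] [Field K] [Algebra F K] {R N q : ℕ} {ξ : Fin R × Fin N → K}

open Finset in
theorem nev_mul {A B : Fin R → ℕ} {x y : K} (hx : x ∈ bm F ξ A) (hy : y ∈ bm F ξ B) :
    x * y ∈ bm F ξ fun b => A b + B b := by
  refine Submodule.span_induction (p := fun x _ => x * y ∈ bm F ξ fun b => A b + B b) ?_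
    (by rw [zero_mul]; exact zero_mem _) (fun _ _ _ _ h1 h2 => by rw [add_mul]; exact add_mem h1 h2)
    (fun a _ _ h => by rw [smul_mul_assoc]; exact Submodule.smul_mem _ a h) hx
  rintro _ ⟨μ, hμ, rfl⟩
  refine Submodule.span_induction
    (p := fun y _ => (∏ s, ξ s ^ μ s) * y ∈ bm F ξ fun b => A b + B b) ?_
    (by rw [mul_zero]; exact zero_mem _) (fun _ _ _ _ h1 h2 => by rw [mul_add]; exact add_mem h1 h2)
    (fun a _ _ h => by rw [mul_smul_comm]; exact Submodule.smul_mem _ a h) hy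
  rintro _ ⟨ν, hν, rfl⟩
  refine Submodule.subset_span ⟨fun s => μ s + ν s, fun b => ?_, ?_⟩
  · rw [sum_add_distrib, hμ, hν]
  · rw [← prod_mul_distrib]
    exact prod_congr rfl fun s _ => (pow_add _ _ _).symm

open Finset in
theorem nev_prod {ι : Type} (s : Finset ι) {A : ι → Fin R → ℕ} {x : ι → K}
    (hx : ∀ i, x i ∈ bm F ξ (A i)) : ∏ i ∈ s, x i ∈ bm F ξ fun b => ∑ i ∈ s, A i b := by
  induction s using Finset.cons_induction with
  | empty => exact Submodule.subset_span ⟨0, fun b => by simp, by simp⟩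
  | cons a s ha ih =>
    simp only [prod_cons, sum_cons]
    exact nev_mul (hx a) ih

theorem nev_pow {A : Fin R → ℕ} {x : K} (hx : x ∈ bm F ξ A) (m : ℕ) :
    x ^ m ∈ bm F ξ fun b => m * A b := by
  simpa using nev_prod (Finset.range m) (A := fun _ => A) (x := fun _ => x) fun _ => hx

theorem nev_mn {Y : Fin R → ℕ} (μ : Mn N Y) : mn ξ μ ∈ bm F ξ Y :=
  Submodule.subset_span ⟨fun s => (μ s.1).1 s.2, fun b => (Finset.mem_piAntidiag.1 (μ b).2).1, rfl⟩

open Finset in
theorem nev_mon (Y : Fin R → ℕ) : mon F (mn (Y := Y) ξ) 1 = bm F ξ Y := by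
  classical
  refine le_antisymm (Submodule.span_le.2 ?_) (Submodule.span_le.2 ?_)
  · rintro _ ⟨α, h, rfl⟩
    have h1 := nev_prod (F := F) (ξ := ξ) univ fun i : Mn N Y => nev_pow (nev_mn i) (α i)
    simp only [← sum_mul, h, one_mul] at h1
    exact h1
  · rintro _ ⟨μ, h, rfl⟩
    refine Submodule.subset_span ⟨Pi.single (fun b => ⟨fun a => μ (b, a),
      mem_piAntidiag.2 ⟨h b, fun _ _ => mem_univ _⟩⟩) 1, by simp, ?_⟩
    simp only [Pi.single_apply, pow_ite, pow_one, pow_zero, prod_ite_eq', mem_univ, if_true]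
    rfl

open Finset in
theorem nev_one (ε : Fin R → Fin N) (Y : Fin R → ℕ) :
    ∃ μ : Mn N Y, mn ξ μ = ∏ b, ξ (b, ε b) ^ Y b := by
  refine ⟨fun b => ⟨Pi.single (ε b) (Y b), mem_piAntidiag.2 ⟨by simp, fun _ _ => mem_univ _⟩⟩, ?_⟩
  rw [mn, Fintype.prod_prod_type]
  refine prod_congr rfl fun b _ => ?_
  simp only [Pi.single_apply, pow_ite, pow_zero, prod_ite_eq', mem_univ, if_true]

open Finset in
theorem nev_div {A : Fin R → ℕ} {z : K} (hz : z ∈ bm F ξ A) (ε : Fin R → Fin N) :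
    z / ∏ b, ξ (b, ε b) ^ A b ∈ chart F ξ ε := by
  refine Submodule.span_induction ?_ (by simp) (fun x y _ _ hx hy => ?_) (fun a x _ hx => ?_) hz
  · rintro _ ⟨μ, h, rfl⟩
    have h1 : ∏ b, ξ (b, ε b) ^ A b = ∏ s : Fin R × Fin N, ξ (s.1, ε s.1) ^ μ s := by
      rw [Fintype.prod_prod_type]
      exact prod_congr rfl fun b _ => by rw [← h, ← prod_pow_eq_pow_sum]
    rw [h1, ← prod_div_distrib]
    exact prod_mem fun s _ => div_pow (ξ s) (ξ (s.1, ε s.1)) _ ▸
      pow_mem (Algebra.subset_adjoin (Set.mem_range_self s)) _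
  · rw [add_div]
    exact add_mem hx hy
  · rw [smul_div_assoc]
    exact Subalgebra.smul_mem _ hx a

theorem nev_val (O : ValuationSubring K) {x y : K} (hx : x ≠ 0) (hy : y ≠ 0) (h1 : x / y ∈ O)
    (h2 : y / x ∈ O) : O.valuation x = O.valuation y := by
  rw [← O.valuation_le_one_iff, map_div₀,
    div_le_one₀ (zero_lt_iff.2 ((map_ne_zero _).2 ‹_›))] at h1 h2
  exact le_antisymm h1 h2

end Pool.Agent.Lib.MP_651af7_nt.Am
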