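import Mathlib

/-! Elementary inequalities. -/

namespace Pool.Agent.Lib.MP_651af7_nt.Am

open Finset

variable {R q : ℕ} {T : Type} [Fintype T] [Nonempty T]

theorem tel_prod {ι : Type} (s : Finset ι) (κ : ι → ℕ) (u : ι → ℝ) (h0 : ∀ b, 0 ≤ u b)
    (h1 : ∀ b, u b ≤ 1) : 1 - ∑ b ∈ s, κ b * u b ≤ ∏ b ∈ s, (1 - u b) ^ κ b := by
  classical
  induction s using Finset.induction_on with
  | empty => simp
  | insert a s ha ih =>
    rw [sum_insert ha, prod_insert ha]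
    have a1 := one_add_mul_le_pow (a := -u a) (by linarith [h1 a]) (κ a)
    have a2 : (1 - u a) ^ κ a ≤ 1 := pow_le_one₀ (sub_nonneg.2 (h1 a)) (sub_le_self _ (h0 a))
    have a3 : ∏ b ∈ s, (1 - u b) ^ κ b ≤ 1 :=
      prod_le_one (fun b _ => pow_nonneg (sub_nonneg.2 (h1 b)) _)
        fun b _ => pow_le_one₀ (sub_nonneg.2 (h1 b)) (sub_le_self _ (h0 b))
    rw [← sub_eq_add_neg] at a1
    nlinarith [mul_nonneg (sub_nonneg.2 a2) (sub_nonneg.2 a3)]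

theorem tel (κ : Fin R → ℕ) (Y d : Fin R → ℝ) (hY : ∀ b, 0 < Y b) (hd : ∀ b, 0 < d b) (b₀ : Fin R)
    (h0 : ∀ b, d b / Y b ≤ d b₀ / Y b₀) (M : ℕ) (hM : M * d b₀ ≤ Y b₀)
    (hM' : Y b₀ ≤ (M + 1) * d b₀) :
    (∏ b, Y b ^ κ b) * (1 - d b₀ / Y b₀) ≤ (d b₀ / Y b₀ + ∑ b, κ b * (d b / Y b)) *
      ∑ m ∈ range M, ∏ b, (Y b - m * d b) ^ κ b := by
  have h1 : ∀ m : ℕ, m ≤ M → ∀ b, m * d b ≤ Y b := fun m hm b => by
    have a1 : (m : ℝ) * (d b₀ / Y b₀) ≤ 1 := by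
      rw [← mul_div_assoc, div_le_one (hY _)]
      exact (mul_le_mul_of_nonneg_right (Nat.cast_le.2 hm) (hd _).le).trans hM
    have a2 := (mul_le_mul_of_nonneg_left (h0 b) m.cast_nonneg).trans a1
    rwa [← mul_div_assoc, div_le_one (hY _)] at a2
  obtain ⟨ψ, hψ⟩ : ∃ ψ : ℕ → ℝ, ∀ m, ψ m = ∏ b, (Y b - m * d b) ^ κ b := ⟨_, fun _ => rfl⟩
  have h2 : ∀ m ∈ range M, (Y b₀ - m * d b₀) * ψ m - (Y b₀ - (m + 1 : ℕ) * d b₀) * ψ (m + 1) ≤
      Y b₀ * (d b₀ / Y b₀ + ∑ b, κ b * (d b / Y b)) * ψ m := fun m hm => by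
    have a1 : ∀ b, d b ≤ Y b - m * d b := fun b => by
      have := h1 (m + 1) (mem_range.1 hm) b
      push_cast at this
      linarith
    have a2 : ∀ b, 0 < Y b - m * d b := fun b => (hd b).trans_le (a1 b)
    have a3 : 0 < ψ m := hψ m ▸ prod_pos fun b _ => pow_pos (a2 b) _
    have a4 : ψ (m + 1) = ψ m * ∏ b, (1 - d b / (Y b - m * d b)) ^ κ b := by
      rw [hψ, hψ, ← prod_mul_distrib]
      refine prod_congr rfl fun b _ => ?_
      rw [← mul_pow, mul_sub, mul_one, mul_div_cancel₀ _ (a2 b).ne', Nat.cast_succ, add_mul,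
        one_mul, sub_sub]
    have a5 := tel_prod univ κ (fun b => d b / (Y b - m * d b))
      (fun b => (div_pos (hd b) (a2 b)).le) fun b => (div_le_one (a2 b)).2 (a1 b)
    have a6 : (Y b₀ - m * d b₀) * ∑ b, κ b * (d b / (Y b - m * d b)) ≤
        Y b₀ * ∑ b, κ b * (d b / Y b) := by
      rw [mul_sum, mul_sum]
      refine sum_le_sum fun b _ => ?_
      rw [mul_left_comm, mul_left_comm (Y b₀)]
      refine mul_le_mul_of_nonneg_left ?_ (κ b).cast_nonneg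
      rw [← mul_div_assoc, ← mul_div_assoc, div_le_div_iff₀ (a2 b) (hY b)]
      have b1 := (div_le_div_iff₀ (hY b) (hY b₀)).1 (h0 b)
      nlinarith [mul_le_mul_of_nonneg_left b1 (mul_nonneg m.cast_nonneg (hd b).le)]
    have a7 : 0 ≤ ∑ b, κ b * (d b / (Y b - m * d b)) :=
      sum_nonneg fun b _ => mul_nonneg (κ b).cast_nonneg (div_pos (hd b) (a2 b)).le
    have a8 := mul_le_mul_of_nonneg_left a5 (sub_nonneg.2 (a1 b₀))
    rw [a4, mul_add, mul_div_cancel₀ _ (hY b₀).ne', Nat.cast_succ]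
    have a9 : Y b₀ - m * d b₀ - (Y b₀ - (m + 1) * d b₀) * ∏ b, (1 - d b / (Y b - m * d b)) ^ κ b ≤
        d b₀ + Y b₀ * ∑ b, κ b * (d b / Y b) := by
      nlinarith [mul_nonneg (hd b₀).le a7]
    linarith [mul_le_mul_of_nonneg_right a9 a3.le]
  have h3 := sum_le_sum h2
  rw [sum_range_sub' fun m : ℕ => (Y b₀ - m * d b₀) * ψ m, ← mul_sum] at h3
  have h4 : (Y b₀ - M * d b₀) * ψ M ≤ d b₀ * ∏ b, Y b ^ κ b := by
    rw [hψ]
    refine mul_le_mul (by linarith) (prod_le_prod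
      (fun b _ => pow_nonneg (sub_nonneg.2 (h1 M le_rfl b)) _) fun b _ => pow_le_pow_left₀
        (sub_nonneg.2 (h1 M le_rfl b)) (sub_le_self _ (mul_nonneg M.cast_nonneg (hd b).le)) _)
      (prod_nonneg fun b _ => pow_nonneg (sub_nonneg.2 (h1 M le_rfl b)) _) (hd _).le
  simp only [hψ 0, Nat.cast_zero, zero_mul, sub_zero] at h3
  simp only [← hψ]
  refine le_of_mul_le_mul_left ?_ (hY b₀)
  rw [mul_left_comm, mul_sub, mul_div_cancel₀ _ (hY b₀).ne', ← mul_assoc]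
  linarith

theorem opt_nat (c : T → ℝ) (κ : T → Fin R → ℕ) {n : ℕ} (hκ : ∀ τ, ∑ b, κ τ b = n)
    (d : Fin q → Fin R → ℕ) (hd : ∀ j b, 0 < d j b) (hq : 0 < q) {a : Fin q → ℝ} {x : Fin R → ℝ}
    (ha : ∀ j, 0 < a j) (hx : ∀ b, x b = ∑ j, a j * d j b) (h : ∀ j b₀,
      a j * ∑ τ, c τ * (∏ b, x b ^ κ τ b) * (d j b₀ / x b₀ + ∑ b, κ τ b * (d j b / x b)) <
        ∑ τ, c τ * ∏ b, x b ^ κ τ b) :
    ∃ (a : Fin q → ℕ) (x : Fin R → ℕ), (∀ j, 0 < a j) ∧ (∀ b, x b = ∑ j, a j * d j b) ∧ ∀ j b₀,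
      (a j : ℝ) * ∑ τ, c τ * (∏ b, (x b : ℝ) ^ κ τ b) *
        ((d j b₀ : ℝ) / x b₀ + ∑ b, κ τ b * ((d j b : ℝ) / x b)) <
        ∑ τ, c τ * ∏ b, (x b : ℝ) ^ κ τ b := by
  obtain ⟨X, hX⟩ : ∃ X : (Fin q → ℝ) → Fin R → ℝ,
      X = fun (z : Fin q → ℝ) b => ∑ j, z j * d j b := ⟨_, rfl⟩
  have e : x = X a := funext fun b => by rw [hx, hX]
  subst e
  have : Nonempty (Fin q) := ⟨⟨0, hq⟩⟩
  have x0 : ∀ b, X a b ≠ 0 := fun b => (hx b ▸ sum_pos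
    (fun j _ => mul_pos (ha j) (Nat.cast_pos.2 (hd j b))) univ_nonempty).ne'
  have xc : ∀ b, ContinuousAt (fun z => X z b) a := fun b => by
    rw [hX]
    exact Continuous.continuousAt (by fun_prop)
  have pc : ∀ τ, ContinuousAt (fun z => c τ * ∏ b, X z b ^ κ τ b) a := fun τ =>
    continuousAt_const.mul (tendsto_finsetProd _ fun b _ => (xc b).pow _)
  have qc : ∀ (u : ℝ) b, ContinuousAt (fun z => u / X z b) a := fun u b =>
    continuousAt_const.div (xc b) (x0 b)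
  have t1 : Filter.Tendsto (fun (m : ℝ) j => (⌈a j * m⌉₊ : ℝ) / m) Filter.atTop (nhds a) :=
    tendsto_pi_nhds.2 fun j => tendsto_nat_ceil_mul_div_atTop (ha j).le
  have t2 : ∀ᶠ z in nhds a, ∀ j b₀,
      z j * ∑ τ, c τ * (∏ b, X z b ^ κ τ b) * (d j b₀ / X z b₀ + ∑ b, κ τ b * (d j b / X z b)) <
        ∑ τ, c τ * ∏ b, X z b ^ κ τ b :=
    Filter.eventually_all.2 fun j => Filter.eventually_all.2 fun b₀ =>
      ContinuousAt.eventually_lt ((continuousAt_apply j a).mul (tendsto_finsetSum _ fun τ _ =>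
        (pc τ).mul ((qc _ _).add (tendsto_finsetSum _ fun b _ => (qc _ b).const_mul _))))
        (tendsto_finsetSum _ fun τ _ => pc τ) (h j b₀)
  obtain ⟨m, h1, h2⟩ := ((t1.eventually t2).and (Filter.eventually_gt_atTop 0)).exists
  refine ⟨fun j => ⌈a j * m⌉₊, _, fun j => Nat.ceil_pos.2 (mul_pos (ha j) h2), fun _ => rfl,
    fun j b₀ => ?_⟩
  obtain ⟨z, hz⟩ : ∃ z : Fin q → ℝ, z = fun j => (⌈a j * m⌉₊ : ℝ) / m := ⟨_, rfl⟩
  have e1 : ∀ j, (⌈a j * m⌉₊ : ℝ) = m * z j := fun j => by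
    rw [hz, mul_div_cancel₀ _ h2.ne']
  have e2 : ∀ b, ((∑ j, ⌈a j * m⌉₊ * d j b : ℕ) : ℝ) = m * X z b := fun b => by
    simp only [hX, Nat.cast_sum, Nat.cast_mul, e1, mul_sum, mul_assoc]
  have e3 : ∀ τ, ∏ b, (m * X z b) ^ κ τ b = m ^ n * ∏ b, X z b ^ κ τ b := fun τ => by
    simp only [mul_pow, prod_mul_distrib, prod_pow_eq_pow_sum, hκ]
  have e4 : ∀ (u : ℝ) b, u / (m * X z b) = m⁻¹ * (u / X z b) := fun u b => by
    rw [div_mul_eq_div_div_swap, div_eq_inv_mul]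
  have h3 := mul_lt_mul_of_pos_left (hz ▸ h1 j b₀) (pow_pos h2 n)
  simp only [e1, e2, e3, e4]
  refine (le_of_eq ?_).trans_lt (h3.trans_eq ?_)
  · rw [mul_sum, mul_sum, mul_sum]
    refine sum_congr rfl fun τ _ => ?_
    simp only [mul_left_comm _ m⁻¹, ← mul_sum]
    field_simp
  · rw [mul_sum]
    exact sum_congr rfl fun τ _ => mul_left_comm _ _ _

end Pool.Agent.Lib.MP_651af7_nt.Am
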