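import Pool.Agent.Lib.MP_651af7_nt.Am.Voc
import Pool.Agent.Lib.MP_651af7_nt.Am.Tel

/-! The choice of the multidegree. -/

namespace Pool.Agent.Lib.MP_651af7_nt.Am

open Finset

variable {R q : ℕ} {T : Type} [Fintype T] [Nonempty T]

theorem num_ev {s H : ℝ} (E H' : ℝ) (n : ℕ) (h0 : 0 < H) (h : s < H) :
    ∀ᶠ L : ℕ in Filter.atTop, s * (L + 1) * ((L + E) ^ n * ((L + E) * H + H')) ≤
      L * (L ^ n * (L - 1) * H ^ 2) := by
  have hc : Continuous fun t : ℝ =>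
      s * (1 + t) * ((1 + E * t) ^ n * ((1 + E * t) * H + H' * t)) - (1 - t) * H ^ 2 := by fun_prop
  have h2 := ((hc.tendsto 0).comp (tendsto_inv_atTop_nhds_zero_nat (𝕜 := ℝ))).eventually
    (gt_mem_nhds (show _ < (0 : ℝ) by simp; nlinarith))
  filter_upwards [h2, Filter.eventually_gt_atTop 0] with L h3 h4
  have hL : (0 : ℝ) < L := by exact_mod_cast h4
  have e : (L + E : ℝ) = L * (1 + E * (L : ℝ)⁻¹) := by field_simp
  have h5 := mul_le_mul_of_nonneg_left (sub_neg.1 h3).le (show (0 : ℝ) ≤ L ^ n * L * L by positivity)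
  refine le_trans (le_of_eq ?_) (h5.trans (le_of_eq ?_))
  · rw [e, mul_pow]
    generalize (1 + E * (L : ℝ)⁻¹) ^ n = P
    field_simp
  · field_simp

theorem num_up (κ x : Fin R → ℕ) {n : ℕ} (hκ : ∑ b, κ b ≤ n) (hx : ∀ b, 0 < x b) (N : ℕ) :
    ((∏ b, (N * x b + κ b).choose (κ b) : ℕ) : ℝ) ≤
      (N + n) ^ (∑ b, κ b) * ((∏ b, ((κ b).factorial : ℝ)⁻¹) * ∏ b, (x b : ℝ) ^ κ b) := by
  rw [← prod_pow_eq_pow_sum, ← prod_mul_distrib, ← prod_mul_distrib, Nat.cast_prod]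
  refine prod_le_prod (fun _ _ => Nat.cast_nonneg _) fun b _ =>
    (Nat.choose_le_pow_div _ _).trans ?_
  rw [mul_left_comm, ← mul_pow, div_eq_inv_mul]
  have h1 : κ b ≤ n * x b :=
    ((single_le_sum (fun _ _ => Nat.zero_le _) (mem_univ b)).trans hκ).trans
      (Nat.le_mul_of_pos_right _ (hx b))
  have h2 : ((N * x b + κ b : ℕ) : ℝ) ≤ (N + n) * x b := by
    rw [add_mul]
    exact_mod_cast Nat.add_le_add_left h1 _
  gcongr

theorem num_low (κ u : Fin R → ℕ) (y : Fin R → ℝ) (h0 : ∀ b, 0 ≤ y b) (h : ∀ b, y b ≤ u b) :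
    (∏ b, ((κ b).factorial : ℝ)⁻¹) * ∏ b, y b ^ κ b ≤ ((∏ b, (u b + κ b).choose (κ b) : ℕ) : ℝ) := by
  rw [← prod_mul_distrib, Nat.cast_prod]
  refine prod_le_prod (fun b _ => by have := h0 b; positivity) fun b _ =>
    le_trans ?_ (Nat.pow_le_choose _ _)
  rw [div_eq_inv_mul, show u b + κ b + 1 - κ b = u b + 1 by omega]
  have h1 : y b ≤ ((u b + 1 : ℕ) : ℝ) := (h b).trans (by exact_mod_cast Nat.le_succ _)
  have := h0 b
  gcongr

theorem num_tel (κ x d : Fin R → ℕ) (hd : ∀ b, 0 < d b) (hx : ∀ b, d b ≤ x b) (b₀ : Fin R)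
    (h0 : ∀ b, (d b : ℝ) / x b ≤ d b₀ / x b₀) {L : ℕ} (hL : 0 < L) :
    (L : ℝ) ^ (∑ b, κ b) * (L - 1) * ∏ b, (x b : ℝ) ^ κ b ≤
      ((d b₀ : ℝ) / x b₀ + ∑ b, κ b * ((d b : ℝ) / x b)) *
        ∑ m ∈ range (L * x b₀ / d b₀), ∏ b, ((L : ℝ) * x b - m * d b) ^ κ b := by
  have l0 : (0 : ℝ) < L := by exact_mod_cast hL
  have x0 : ∀ b, (0 : ℝ) < x b := fun b => by exact_mod_cast (hd b).trans_le (hx b)
  have e : ∀ b, (d b : ℝ) / (L * x b) = (L : ℝ)⁻¹ * (d b / x b) := fun b => by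
    rw [mul_comm (L : ℝ), ← div_div, div_eq_inv_mul]
  have h1 := tel κ (fun b => L * x b) (fun b => d b) (fun b => mul_pos l0 (x0 b))
    (fun b => by exact_mod_cast hd b) b₀
    (fun b => by rw [e, e]; exact mul_le_mul_of_nonneg_left (h0 b) (by positivity))
    (L * x b₀ / d b₀) (by exact_mod_cast Nat.div_mul_le_self _ _)
    (by exact_mod_cast ((Nat.lt_mul_div_succ _ (hd b₀)).trans_eq (mul_comm _ _)).le)
  simp only [e, mul_left_comm _ (L : ℝ)⁻¹, ← mul_sum, ← mul_add, mul_pow, prod_mul_distrib,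
    prod_pow_eq_pow_sum] at h1
  have h2 : (d b₀ : ℝ) / x b₀ ≤ 1 := (div_le_one (x0 _)).2 (by exact_mod_cast hx b₀)
  have h3 := mul_le_mul_of_nonneg_left h1 l0.le
  rw [← mul_assoc, ← mul_assoc, ← mul_assoc, mul_inv_cancel_left₀ l0.ne'] at h3
  refine le_trans ?_ h3
  have h4 : (0 : ℝ) ≤ (L : ℝ) ^ (∑ b, κ b) * ∏ b, (x b : ℝ) ^ κ b := by positivity
  have h5 := mul_le_mul_of_nonneg_left h2 h4
  have h6 : (L : ℝ) * (L : ℝ)⁻¹ = 1 := mul_inv_cancel₀ l0.ne'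
  generalize (L : ℝ) ^ (∑ b, κ b) = P at *
  generalize ∏ b, (x b : ℝ) ^ κ b = Q at *
  generalize (d b₀ : ℝ) / x b₀ = r at *
  have h7 : L * P * Q * (1 - (L : ℝ)⁻¹ * r) = L * P * Q - (L * (L : ℝ)⁻¹) * (P * Q * r) := by ring
  rw [h7, h6]
  linarith

end Pool.Agent.Lib.MP_651af7_nt.Am
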