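import Pool.Agent.Lib.MP_651af7_nt.Am.Voc

/-! The multigraded Hilbert function, by standard monomials. -/

namespace Pool.Agent.Lib.MP_651af7_nt.Am

open Module Finset Submodule

open Classical in
theorem std_greedy {F V I Γ : Type} [Field F] [AddCommGroup V] [Module F V] [LinearOrder Γ]
    {o : I → Γ} (ho : Function.Injective o) (v : I → V) (s : Finset I) :
    finrank F (span F (v '' s)) =
      #{i ∈ s | v i ∉ span F (v '' {j | j ∈ s ∧ o j < o i})} := by
  induction s using Finset.induction_on_max_value o with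
  | empty => rw [coe_empty, Set.image_empty, span_empty, finrank_bot]; simp
  | insert a s ha hm ih =>
    have h1 : ∀ i ∈ s, {j | j ∈ insert a s ∧ o j < o i} = {j | j ∈ s ∧ o j < o i} := fun i hi =>
      Set.ext fun j => ⟨fun h => ⟨(mem_insert.1 h.1).resolve_left fun e =>
        (hm i hi).not_gt (e ▸ h.2), h.2⟩, fun h => ⟨mem_insert_of_mem h.1, h.2⟩⟩
    have h2 : {j | j ∈ insert a s ∧ o j < o a} = (s : Set I) :=
      Set.ext fun j => ⟨fun h => (mem_insert.1 h.1).resolve_left fun e => lt_irrefl _ (e ▸ h.2),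
        fun h => ⟨mem_insert_of_mem h, (hm j h).lt_of_ne fun e => ha (ho e ▸ h)⟩⟩
    have h3 : {i ∈ s | v i ∉ span F (v '' {j | j ∈ insert a s ∧ o j < o i})} =
        {i ∈ s | v i ∉ span F (v '' {j | j ∈ s ∧ o j < o i})} :=
      filter_congr fun i hi => by rw [h1 i hi]
    rw [filter_insert, h2, h3, coe_insert, Set.image_insert_eq]
    split_ifs with h
    · rw [span_insert_eq_span h, ih]
    · have : FiniteDimensional F (span F (v '' s)) :=
        FiniteDimensional.span_of_finite F (s.finite_toSet.image v)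
      have h0 : v a ≠ 0 := fun e => h (e ▸ zero_mem _)
      have h4 := finrank_sup_add_finrank_inf_eq (span F {v a}) (span F (v '' s))
      rw [(disjoint_span_singleton_of_notMem h).symm.eq_bot, finrank_bot,
        finrank_span_singleton h0] at h4
      rw [card_insert_of_notMem fun e => ha (mem_filter.1 e).1, span_insert, ← ih]
      omega

theorem std_dickson {σ : Type} [Fintype σ] {P : (σ → ℕ) → Prop}
    (hP : ∀ μ ν, μ ≤ ν → P ν → P μ) : ∃ D : ℕ, ∀ μ, P μ ↔ P fun s => min (μ s) D := by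
  have h1 : {μ | Minimal (fun μ => ¬P μ) μ}.Finite :=
    WellQuasiOrderedLE.finite_of_isAntichain (setOfPred_minimal_antichain _)
  obtain ⟨B, hB⟩ := h1.bddAbove
  refine ⟨∑ s, B s, fun μ => ⟨hP _ _ fun s => min_le_left _ _, fun h => by_contra fun h' => ?_⟩⟩
  obtain ⟨ν, h2, h3⟩ := exists_minimal_le_of_wellFoundedLT (fun μ => ¬P μ) μ h'
  exact h3.1 (hP _ _ (fun s => le_min (h2 s)
    ((hB h3 s).trans (single_le_sum (fun _ _ => Nat.zero_le _) (mem_univ s)))) h)

variable {F K : Type} [Field F] [Field K] [Algebra F K] {R N : ℕ} {ξ : Fin R × Fin N → K}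

/-- A linear order on the exponent vectors. -/
def stdO (μ : Fin R × Fin N → ℕ) : Lex (Fin (R * N) → ℕ) :=
  toLex fun i => μ (finProdFinEquiv.symm i)

theorem stdO_inj : Function.Injective (stdO (R := R) (N := N)) := fun μ ν h =>
  funext fun s => by simpa using congrFun (toLex.injective h) (finProdFinEquiv s)

theorem stdO_add {μ ν : Fin R × Fin N → ℕ} (h : stdO μ < stdO ν) (ρ : Fin R × Fin N → ℕ) :
    stdO (μ + ρ) < stdO (ν + ρ) :=
  add_lt_add_left h (stdO ρ)

/-- The exponent vectors of multidegree `Y`. -/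
def stdM (N : ℕ) (Y : Fin R → ℕ) : Finset (Fin R × Fin N → ℕ) :=
  {μ ∈ Fintype.piFinset fun s => range (Y s.1 + 1) | ∀ b, ∑ a, μ (b, a) = Y b}

theorem mem_stdM {Y : Fin R → ℕ} {μ : Fin R × Fin N → ℕ} :
    μ ∈ stdM N Y ↔ ∀ b, ∑ a, μ (b, a) = Y b := by
  refine mem_filter.trans (and_iff_right_of_imp fun h => Fintype.mem_piFinset.2 fun s => ?_)
  exact mem_range.2 (Nat.lt_succ_of_le ((single_le_sum (f := fun a => μ (s.1, a))
    (fun _ _ => Nat.zero_le _) (mem_univ s.2)).trans (h s.1).le))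

variable (F ξ) in
/-- The monomial is not a combination of smaller monomials of the same multidegree. -/
def Std (μ : Fin R × Fin N → ℕ) : Prop :=
  ∏ s, ξ s ^ μ s ∉ span F ((fun ν => ∏ s, ξ s ^ ν s) ''
    {ν | ν ∈ stdM N (fun b => ∑ a, μ (b, a)) ∧ stdO ν < stdO μ})

theorem std_anti (μ ν : Fin R × Fin N → ℕ) (h : μ ≤ ν) (hν : Std F ξ ν) : Std F ξ μ := by
  obtain ⟨ρ, rfl⟩ := exists_add_of_le h
  refine fun h' => hν ?_
  have e : ∀ μ : Fin R × Fin N → ℕ, ∏ s, ξ s ^ (μ + ρ) s = (∏ s, ξ s ^ μ s) * ∏ s, ξ s ^ ρ s :=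
    fun μ => by simp only [Pi.add_apply, pow_add, prod_mul_distrib]
  rw [e]
  refine span_induction (p := fun z _ => z * ∏ s, ξ s ^ ρ s ∈ _) ?_ (by simp)
    (fun x y _ _ hx hy => by rw [add_mul]; exact add_mem hx hy)
    (fun c x _ hx => by rw [smul_mul_assoc]; exact smul_mem _ c hx) h'
  rintro _ ⟨ν, ⟨h1, h2⟩, rfl⟩
  refine subset_span ⟨ν + ρ, ⟨mem_stdM.2 fun b => ?_, stdO_add h2 ρ⟩, e ν⟩
  simp only [Pi.add_apply, sum_add_distrib, mem_stdM.1 h1 b]

theorem std_bm (Y : Fin R → ℕ) :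
    bm F ξ Y = span F ((fun ν : Fin R × Fin N → ℕ => ∏ s, ξ s ^ ν s) ''
      (stdM N Y : Set (Fin R × Fin N → ℕ))) :=
  congrArg (span F) (Set.ext fun _ => ⟨fun ⟨μ, h, e⟩ => ⟨μ, mem_stdM.2 h, e.symm⟩,
    fun ⟨μ, h, e⟩ => ⟨μ, mem_stdM.1 h, e.symm⟩⟩)

open Classical in
theorem std_count (Y : Fin R → ℕ) : finrank F (bm F ξ Y) = #{μ ∈ stdM N Y | Std F ξ μ} := by
  rw [std_bm, std_greedy stdO_inj]
  refine congrArg card (filter_congr fun μ hμ => ?_)
  rw [Std, funext (mem_stdM.1 hμ)]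
  exact Iff.rfl

theorem std_fibre {D : ℕ} {τ : Fin R × Fin N → ℕ} (hτ : ∀ s, τ s ≤ D) {Y : Fin R → ℕ}
    (hY : ∀ b, ∑ a, τ (b, a) ≤ Y b) : #{μ ∈ stdM N Y | (fun s => min (μ s) D) = τ} =
      ∏ b, (#{a | τ (b, a) = D} + (Y b - ∑ a, τ (b, a)) - 1).choose (Y b - ∑ a, τ (b, a)) := by
  have h1 : ∀ (Z : Finset (Fin N)) (m : ℕ), #(piAntidiag Z m) = (#Z + m - 1).choose m :=
    fun Z m => by rw [← card_finsuppAntidiag_nat_eq_choose, finsuppAntidiag, card_map, card_attach]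
  simp only [← h1]
  rw [← Fintype.card_piFinset]
  refine card_nbij' (fun μ b a => μ (b, a) - τ (b, a)) (fun ν s => τ s + ν s.1 s.2) ?_ ?_ ?_ ?_
  · intro μ hμ
    obtain ⟨k1, k2⟩ := mem_filter.1 hμ
    have k3 : ∀ s, min (μ s) D = τ s := congrFun k2
    refine Fintype.mem_piFinset.2 fun b => mem_piAntidiag.2 ⟨?_, fun a ha => ?_⟩
    · rw [sum_subset (subset_univ _) fun a _ ha => by
          have := k3 (b, a)
          have := hτ (b, a)
          simp only [mem_filter, mem_univ, true_and] at ha ⊢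
          omega,
        sum_tsub_distrib _ fun a _ => (k3 (b, a)).ge.trans (min_le_left _ _), mem_stdM.1 k1]
    · have := k3 (b, a)
      have := hτ (b, a)
      simp only [mem_filter, mem_univ, true_and] at ha ⊢
      omega
  · intro ν hν
    have k1 := fun b => mem_piAntidiag.1 (Fintype.mem_piFinset.1 hν b)
    refine mem_filter.2 ⟨mem_stdM.2 fun b => ?_, funext fun s => ?_⟩
    · rw [sum_add_distrib, ← sum_subset (subset_univ _) fun a _ ha =>
        by_contra fun e => ha ((k1 b).2 a e), (k1 b).1, Nat.add_sub_cancel' (hY b)]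
    · obtain ⟨b, a⟩ := s
      have k2 := (k1 b).2 a
      have k3 := hτ (b, a)
      simp only [mem_filter, mem_univ, true_and] at k2 ⊢
      omega
  · intro μ hμ
    funext s
    exact Nat.add_sub_cancel' ((congrFun (mem_filter.1 hμ).2 s).ge.trans (min_le_left _ _))
  · intro ν _
    funext b a
    exact Nat.add_sub_cancel_left _ _

theorem std_tr {D : ℕ} {τ : Fin R × Fin N → ℕ}
    (hτ : ∀ ν : Fin R × Fin N → ℕ, (∀ s, ν s ≠ 0 → τ s = D) → Std F ξ (τ + ν))
    (e : Fin R → Fin N) (he : ∀ b, τ (b, e b) = D) :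
    AlgebraicIndependent F fun i : {s : Fin R × Fin N // τ s = D ∧ s.2 ≠ e s.1} =>
      ξ i.1 / ξ (i.1.1, e i.1.1) := by
  classical
  have h0 : ∀ b, ξ (b, e b) ≠ 0 := fun b h => hτ (Pi.single (b, e b) 1)
    (fun s hs => by_contra fun h' => hs (Pi.single_eq_of_ne
      (fun k : s = (b, e b) => h' (by rw [k, he])) _)) (by
      rw [prod_eq_zero (mem_univ (b, e b)) (by simp [h])]
      exact zero_mem _)
  refine algebraicIndependent_iff.2 fun p hp => by_contra fun p0 => ?_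
  let x : ({s : Fin R × Fin N // τ s = D ∧ s.2 ≠ e s.1} →₀ ℕ) → Fin R × Fin N → ℕ := fun m s =>
    if h : τ s = D ∧ s.2 ≠ e s.1 then m ⟨s, h⟩ else 0
  have x1 : ∀ {A : Type} [CommMonoid A] (z : Fin R × Fin N → A) m,
      ∏ s, z s ^ x m s = ∏ i, z i.1 ^ m i := fun z m => by
    rw [← Fintype.prod_subtype_mul_prod_subtype fun s => τ s = D ∧ s.2 ≠ e s.1,
      prod_eq_one (s := univ) fun i : {s : Fin R × Fin N // ¬(τ s = D ∧ s.2 ≠ e s.1)} =>
        fun _ => by simp only [x, dif_neg i.2, pow_zero], mul_one]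
    exact prod_congr rfl fun i _ => by simp only [x, dif_pos i.2]
  have x2 : ∀ m ∈ p.support, ∀ b, ∑ a, x m (b, a) ≤ p.totalDegree := fun m hm b => by
    have k := x1 (fun _ => Multiplicative.ofAdd (1 : ℕ)) m
    rw [prod_pow_eq_pow_sum, prod_pow_eq_pow_sum] at k
    have k1 : ∑ s, x m s = ∑ i, m i := by simpa using congrArg Multiplicative.toAdd k
    have k2 := MvPolynomial.le_totalDegree hm
    rw [Finsupp.sum_fintype _ _ fun _ => rfl, ← k1, Fintype.sum_prod_type] at k2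
    exact (single_le_sum (f := fun b => ∑ a, x m (b, a)) (fun _ _ => Nat.zero_le _)
      (mem_univ b)).trans k2
  let ν := fun m s => x m s + if s.2 = e s.1 then p.totalDegree - ∑ a, x m (s.1, a) else 0
  have n1 : ∀ m s, ν m s ≠ 0 → τ s = D := fun m s h => by_contra fun h' => h (by
    have : s.2 ≠ e s.1 := fun k => h' (by rw [← he s.1, ← k])
    simp [ν, x, h', this])
  have n2 : ∀ m ∈ p.support, ∀ b, ∑ a, (τ + ν m) (b, a) = ∑ a, τ (b, a) + p.totalDegree :=
    fun m hm b => by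
      simp only [ν, Pi.add_apply, sum_add_distrib, sum_ite_eq', mem_univ, if_true,
        Nat.add_sub_cancel' (x2 m hm b)]
  have n3 : ∀ m m', τ + ν m = τ + ν m' → m = m' := fun m m' h => Finsupp.ext fun i => by
    simpa [ν, x, i.2.1, i.2.2] using congrFun h i.1
  have n4 : ∀ m ∈ p.support, ∏ s, ξ s ^ (τ + ν m) s = ((∏ s, ξ s ^ τ s) *
      ∏ b, ξ (b, e b) ^ p.totalDegree) * ∏ i, (ξ i.1 / ξ (i.1.1, e i.1.1)) ^ m i := fun m hm => by
    rw [← x1 (fun s => ξ s / ξ (s.1, e s.1))]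
    simp only [ν, Pi.add_apply, pow_add, prod_mul_distrib, div_pow, prod_div_distrib, pow_ite,
      pow_zero]
    rw [mul_assoc, mul_div_assoc', mul_comm (∏ b, ξ (b, e b) ^ _), mul_div_assoc,
      Fintype.prod_prod_type fun s : Fin R × Fin N => ξ (s.1, e s.1) ^ x m s,
      Fintype.prod_prod_type fun s : Fin R × Fin N => if s.2 = e s.1 then _ else _,
      ← prod_div_distrib]
    refine congrArg _ (congrArg _ (prod_congr rfl fun b _ => ?_))
    simp only [prod_ite_eq', mem_univ, if_true, prod_pow_eq_pow_sum]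
    rw [pow_sub₀ _ (h0 b) (x2 m hm b), div_eq_mul_inv]
  obtain ⟨m, m1, m2⟩ := exists_max_image p.support (fun m => stdO (τ + ν m))
    (MvPolynomial.support_nonempty.2 p0)
  refine hτ (ν m) (n1 m) ?_
  have k : ∑ m ∈ p.support, p.coeff m • ∏ s, ξ s ^ (τ + ν m) s = 0 := by
    rw [MvPolynomial.aeval_def, MvPolynomial.eval₂_eq'] at hp
    rw [sum_congr rfl fun m hm => by rw [n4 m hm, ← mul_smul_comm, Algebra.smul_def], ← mul_sum,
      hp, mul_zero]
  rw [← add_sum_erase _ _ m1, add_eq_zero_iff_eq_neg] at k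
  rw [← smul_mem_iff _ (MvPolynomial.mem_support_iff.1 m1), k]
  refine neg_mem (sum_mem fun m' hm => smul_mem _ _ (subset_span ⟨τ + ν m', ⟨?_, ?_⟩, rfl⟩))
  · exact mem_stdM.2 fun b => (n2 m' (mem_of_mem_erase hm) b).trans (n2 m m1 b).symm
  · exact (m2 m' (mem_of_mem_erase hm)).lt_of_ne fun h =>
      ne_of_mem_erase hm (n3 _ _ (stdO_inj h))

/-- The truncated exponent vectors of the standard monomials. -/
noncomputable def stdB (F : Type) [Field F] [Algebra F K] (ξ : Fin R × Fin N → K) (D : ℕ) :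
    Finset (Fin R × Fin N → ℕ) := by
  classical exact {τ ∈ Fintype.piFinset fun _ => range (D + 1) | Std F ξ τ}

theorem mem_stdB {D : ℕ} {τ : Fin R × Fin N → ℕ} :
    τ ∈ stdB F ξ D ↔ (∀ s, τ s ≤ D) ∧ Std F ξ τ := by
  simp only [stdB, mem_filter, Fintype.mem_piFinset, mem_range, Nat.lt_succ_iff]

theorem stdB_le {D : ℕ} {τ : Fin R × Fin N → ℕ} (h : τ ∈ stdB F ξ D) (b : Fin R) :
    ∑ a, τ (b, a) ≤ N * D :=
  (sum_le_card_nsmul _ _ D fun a _ => (mem_stdB.1 h).1 _).trans (by simp)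

theorem std_key {D : ℕ} (hD : ∀ μ, Std F ξ μ ↔ Std F ξ fun s => min (μ s) D) {Y : Fin R → ℕ}
    (hY : ∀ b, N * D + 1 ≤ Y b) : finrank F (bm F ξ Y) =
      ∑ τ ∈ stdB F ξ D with ∀ b, ∃ a, τ (b, a) = D, ∏ b,
        (Y b - ∑ a, τ (b, a) + (#{a | τ (b, a) = D} - 1)).choose (#{a | τ (b, a) = D} - 1) := by
  classical
  have e1 : ∀ τ ∈ stdB F ξ D, ∀ b, ∑ a, τ (b, a) < Y b := fun τ h b =>
    (stdB_le h b).trans_lt (hY b)
  have e2 : ∀ μ ∈ ({μ ∈ stdM N Y | Std F ξ μ} : Finset (Fin R × Fin N → ℕ)),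
      (fun s => min (μ s) D) ∈ stdB F ξ D := fun μ h =>
    mem_stdB.2 ⟨fun s => min_le_right _ _, (hD μ).1 (mem_filter.1 h).2⟩
  rw [std_count, card_eq_sum_card_fiberwise e2, sum_filter]
  refine sum_congr rfl fun τ h => ?_
  have e3 : {μ ∈ {μ ∈ stdM N Y | Std F ξ μ} | (fun s => min (μ s) D) = τ} =
      {μ ∈ stdM N Y | (fun s => min (μ s) D) = τ} := by
    rw [filter_filter]
    refine filter_congr fun μ _ => and_iff_right_of_imp fun e => (hD μ).2 ?_
    rw [e]
    exact (mem_stdB.1 h).2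
  rw [e3, std_fibre (mem_stdB.1 h).1 fun b => (e1 τ h b).le]
  split_ifs with k
  · refine prod_congr rfl fun b _ => ?_
    obtain ⟨c, hc⟩ : ∃ c, #{a | τ (b, a) = D} = c + 1 :=
      ⟨_, (Nat.sub_add_cancel (card_pos.2 ((k b).imp fun a h => by simpa using h))).symm⟩
    rw [hc, show ∀ x y : ℕ, x + 1 + y - 1 = y + x from fun _ _ => by omega, Nat.choose_symm_add,
      Nat.add_sub_cancel]
  · obtain ⟨b, hb⟩ : ∃ b, ∀ a, τ (b, a) ≠ D := by simpa using k
    refine prod_eq_zero (mem_univ b) (Nat.choose_eq_zero_of_lt ?_)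
    have := e1 τ h b
    rw [filter_false_of_mem fun a _ => hb a, card_empty]
    omega

theorem std_dim {D n : ℕ} (hn : Algebra.trdeg F K = n)
    (hD : ∀ μ, Std F ξ μ ↔ Std F ξ fun s => min (μ s) D) {τ : Fin R × Fin N → ℕ}
    (h : τ ∈ stdB F ξ D) (e : Fin R → Fin N) (he : ∀ b, τ (b, e b) = D) :
    ∑ b, (#{a | τ (b, a) = D} - 1) ≤ n := by
  have k : ∀ ν : Fin R × Fin N → ℕ, (∀ s, ν s ≠ 0 → τ s = D) → Std F ξ (τ + ν) := fun ν hν => by
    have k : (fun s => min ((τ + ν) s) D) = τ := funext fun s => by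
      have := hν s
      have := (mem_stdB.1 h).1 s
      simp only [Pi.add_apply]
      omega
    rw [hD, k]
    exact (mem_stdB.1 h).2
  have k1 := (std_tr k e he).cardinalMk_le_trdeg
  rw [hn, Cardinal.mk_fintype, Nat.cast_le, Fintype.card_subtype, card_filter,
    Fintype.sum_prod_type] at k1
  refine le_trans (le_of_eq (sum_congr rfl fun b _ => ?_)) k1
  dsimp only
  rw [← card_filter, ← filter_filter, filter_ne', card_erase_of_mem (by simpa using he b)]

theorem std_pos (ξ1 : ∀ b, ∃ a, ξ (b, a) ≠ 0) (Y : Fin R → ℕ) : finrank F (bm F ξ Y) ≠ 0 := by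
  choose e he using ξ1
  have : FiniteDimensional F (bm F ξ Y) := by
    rw [std_bm]
    exact FiniteDimensional.span_of_finite F ((finite_toSet _).image _)
  rw [Ne, Submodule.finrank_eq_zero, eq_bot_iff]
  refine fun h => prod_ne_zero_iff.2 (fun s _ => ?_) (h (subset_span
    ⟨fun s => if s.2 = e s.1 then Y s.1 else 0, fun b => by simp, rfl⟩))
  dsimp only
  split_ifs with k
  · exact pow_ne_zero _ (by rw [show s = (s.1, e s.1) from Prod.ext rfl k]; exact he _)
  · simp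

theorem hilb (ξ1 : ∀ b, ∃ a, ξ (b, a) ≠ 0) {n : ℕ} (hn : Algebra.trdeg F K = n) :
    ∃ (T : Type) (_ : Fintype T) (_ : Nonempty T) (κ : T → Fin R → ℕ) (D : ℕ),
      (∀ τ, ∑ b, κ τ b ≤ n) ∧ Sw κ D fun Y => finrank F (bm F ξ Y) := by
  obtain ⟨D, hD⟩ := std_dickson (std_anti (F := F) (ξ := ξ))
  obtain ⟨T, hT⟩ : ∃ T : Finset (Fin R × Fin N → ℕ),
    T = {τ ∈ stdB F ξ D | ∀ b, ∃ a, τ (b, a) = D} := ⟨_, rfl⟩
  have t1 : ∀ τ : T, τ.1 ∈ stdB F ξ D ∧ ∀ b, ∃ a, τ.1 (b, a) = D := fun τ =>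
    mem_filter.1 (hT.le τ.2)
  have key := fun Y hY => std_key hD (Y := Y) hY
  simp only [← hT, ← sum_coe_sort T] at key
  refine ⟨T, inferInstance, not_isEmpty_iff.1 fun _ => ?_, fun τ b => #{a | τ.1 (b, a) = D} - 1,
    N * D + 1, fun τ => ?_, fun Y hY => ?_⟩
  · exact std_pos ξ1 _ ((key (fun _ => N * D + 1) fun _ => le_rfl).trans (sum_of_isEmpty _))
  · choose e he using (t1 τ).2
    exact std_dim hn hD (t1 τ).1 e he
  · refine ⟨le_trans ?_ (key Y hY).ge, (key Y hY).le.trans ?_⟩ <;>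
      refine sum_le_sum fun τ _ => prod_le_prod' fun b _ => Nat.choose_le_choose _
        (Nat.add_le_add_right ?_ _)
    · exact Nat.sub_le_sub_left ((stdB_le (t1 τ).1 b).trans (Nat.le_succ _)) _
    · exact Nat.sub_le _ _

end Pool.Agent.Lib.MP_651af7_nt.Am
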