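import Pool.Agent.Lib.MP_651af7_nt.Am.Defs

/-! Forms of a given multidegree. -/

namespace Pool.Agent.Lib.MP_651af7_nt.Am

variable (F : Type) {K : Type} [Field F] [Field K] [Algebra F K] {R N q : ℕ}
  (ξ : Fin R × Fin N → K)

/-- The exponent vectors of multidegree `Y`. -/
abbrev Mn (N : ℕ) (Y : Fin R → ℕ) : Type := ∀ b : Fin R, Finset.piAntidiag (Finset.univ : Finset (Fin N)) (Y b)

/-- The monomial with the exponents `μ`. -/
def mn {A : Type} [CommMonoid A] {Y : Fin R → ℕ} (t : Fin R × Fin N → A) (μ : Mn N Y) : A :=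
  ∏ s, t s ^ (μ s.1).1 s.2

/-- The element `u` times a product of powers of one coordinate in each block. -/
def pw {A : Type} [CommMonoid A] (t : Fin R × Fin N → A) (u : A) (Z : Fin R → ℕ)
    (l : Fin (N ^ R)) : A :=
  u * ∏ b, t (b, finFunctionFinEquiv.symm l b) ^ Z b

/-- Two sided bounds for a function of the multidegree. -/
def Sw {T : Type} [Fintype T] (κ : T → Fin R → ℕ) (D : ℕ) (h : (Fin R → ℕ) → ℕ) : Prop :=
  ∀ Y : Fin R → ℕ, (∀ b, D ≤ Y b) →
    ∑ τ, ∏ b, (Y b - D + κ τ b).choose (κ τ b) ≤ h Y ∧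
      h Y ≤ ∑ τ, ∏ b, (Y b + κ τ b).choose (κ τ b)

/-- A good choice of the multidegree `Y` and of the weights `a`. -/
structure Good (h : (Fin R → ℕ) → ℕ) (d : Fin q → Fin R → ℕ) (Y : Fin R → ℕ) (a M : Fin q → ℕ)
    (p : ℕ) : Prop where
  pos : 0 < p
  apos : ∀ j, 0 < a j
  le : ∀ j b, d j b ≤ Y b
  sum : ∀ b, ∑ j, a j * d j b = (p + 1) * Y b
  mle : ∀ j b, M j * d j b ≤ Y b
  cnt : ∀ j, a j * h Y ≤ p * ∑ m ∈ Finset.range (M j), h fun b => Y b - (m + 1) * d j b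

end Pool.Agent.Lib.MP_651af7_nt.Am
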